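import Pool.Agent.FS.BGConj.Main

/-!
In the Baumslag-Gersten group `G = ⟨a, t | (t a t⁻¹) a (t a t⁻¹)⁻¹ a⁻²⟩` (`a`, `t` are the
generators `0`, `1`) there is a `K` for which the equations
`(x u₁ x⁻¹) v₁ ⋯ (x u_K x⁻¹) v_K = 1` have an undecidable satisfiability problem.

An input is a list of pairs of words; `(i, true)` is the generator `i`, `(i, false)` its inverse.
-/

theorem Pool.Agent.Variants.MP_1ebeae_al.ConjugatesOnly.result :
    ∃ r : FreeGroup (Fin 2),
      r = (FreeGroup.of 1 * FreeGroup.of 0 * (FreeGroup.of 1)⁻¹) * FreeGroup.of 0 *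
          (FreeGroup.of 1 * FreeGroup.of 0 * (FreeGroup.of 1)⁻¹)⁻¹ * (FreeGroup.of 0 ^ 2)⁻¹ ∧
      ∃ K : ℕ, ¬ ComputablePred fun L : List (List (Fin 2 × Bool) × List (Fin 2 × Bool)) =>
        L.length = K ∧ ∃ g : PresentedGroup ({r} : Set (FreeGroup (Fin 2))),
          (L.map fun p => g * FreeGroup.lift PresentedGroup.of (FreeGroup.mk p.1) * g⁻¹ *
            FreeGroup.lift PresentedGroup.of (FreeGroup.mk p.2)).prod = 1 :=
  ⟨Pool.Agent.Lib.MP_1ebeae_al.rel2, by decide, Pool.Agent.FS.BGConj.undec⟩
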